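import Mathlib

/-!
# PN86/Bc: independent trials and the Borel-Cantelli lemma
-/

set_option autoImplicit false

namespace Pool.Agent.PN86

open MeasureTheory ProbabilityTheory Filter Topology

/-- The probability that none of the events `E m`, `m ∈ S`, occurs. -/
theorem none_le {Ω : Type} [MeasurableSpace Ω] {μ : Measure Ω} [IsProbabilityMeasure μ]
    {E : ℕ → Set Ω} (hE : ∀ m, MeasurableSet (E m)) (hi : iIndepSet E μ) (S : Finset ℕ) {q : ℝ}
    (hq1 : q ≤ 1) (hq : ∀ m ∈ S, q ≤ μ.real (E m)) :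
    μ (⋂ m ∈ S, (E m)ᶜ) ≤ ENNReal.ofReal ((1 - q) ^ S.card) := by
  have h1 : μ (⋂ m ∈ S, (E m)ᶜ) = ∏ m ∈ S, μ ((E m)ᶜ) := by
    have hi' : iIndep (fun m => MeasurableSpace.generateFrom {E m}) μ := hi
    exact hi'.meas_biInter fun m _ =>
      (MeasurableSpace.measurableSet_generateFrom (Set.mem_singleton _)).compl
  rw [h1]
  have h2 : ∀ m ∈ S, μ ((E m)ᶜ) ≤ ENNReal.ofReal (1 - q) := by
    intro m hm
    have h3 : μ.real ((E m)ᶜ) = 1 - μ.real (E m) := by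
      rw [measureReal_compl (hE m)]
      simp
    have h4 : μ ((E m)ᶜ) = ENNReal.ofReal (μ.real ((E m)ᶜ)) := by
      rw [ofReal_measureReal]
    rw [h4, h3]
    exact ENNReal.ofReal_le_ofReal (by linarith [hq m hm])
  calc ∏ m ∈ S, μ ((E m)ᶜ) ≤ ∏ _m ∈ S, ENNReal.ofReal (1 - q) := Finset.prod_le_prod' h2
    _ = ENNReal.ofReal ((1 - q) ^ S.card) := by
      rw [Finset.prod_const, ENNReal.ofReal_pow (by linarith)]

theorem as_exists {Ω : Type} [MeasurableSpace Ω] {μ : Measure Ω} [IsProbabilityMeasure μ]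
    {E : ℕ → Set Ω} (hE : ∀ m, MeasurableSet (E m)) (hi : iIndepSet E μ) (S : ℕ → Finset ℕ)
    (q : ℕ → ℝ) (h : ∀ᶠ n in atTop, q n ≤ 1 ∧ (∀ m ∈ S n, q n ≤ μ.real (E m)) ∧
      (1 - q n) ^ (S n).card ≤ 1 / (n : ℝ) ^ 2) :
    ∀ᵐ ω ∂μ, ∀ᶠ n in atTop, ∃ m ∈ S n, ω ∈ E m := by
  obtain ⟨N, hN⟩ := eventually_atTop.1 h
  have hsum : ∑' n, μ (if N ≤ n then ⋂ m ∈ S n, (E m)ᶜ else ∅) ≠ ⊤ := by
    have h1 : ∀ n, μ (if N ≤ n then ⋂ m ∈ S n, (E m)ᶜ else ∅) ≤
        ENNReal.ofReal (1 / (n : ℝ) ^ 2) := by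
      intro n
      split_ifs with hn
      · obtain ⟨h2, h3, h4⟩ := hN n hn
        exact (none_le hE hi (S n) h2 h3).trans (ENNReal.ofReal_le_ofReal h4)
      · simp
    have h5 : Summable fun n : ℕ => 1 / (n : ℝ) ^ 2 :=
      Real.summable_one_div_nat_pow.2 (by norm_num)
    exact ne_top_of_le_ne_top h5.tsum_ofReal_ne_top (ENNReal.tsum_le_tsum h1)
  filter_upwards [ae_eventually_notMem hsum] with ω hω
  filter_upwards [hω, eventually_ge_atTop N] with n hn hNn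
  rw [if_pos hNn] at hn
  by_contra hno
  push Not at hno
  exact hn (Set.mem_iInter₂.2 fun m hm => hno m hm)

end Pool.Agent.PN86
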