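import Pool.Agent.GM53.Defs

/-!
# PN86/Coin: the coin model is given by independent events (as in GM53/Main)
-/

set_option autoImplicit false

namespace Pool.Agent.PN86

open MeasureTheory ProbabilityTheory Filter Topology Finset Pool.Agent.GM53

instance instProbCoin (z : ℕ → ℕ) (m : ℕ) : IsProbabilityMeasure (coin z m) := by
  constructor
  unfold coin
  have h0 := prob_nonneg z m
  have h1 := prob_le_one z m
  simp only [Measure.coe_add, Measure.coe_smul, Pi.add_apply, Pi.smul_apply, measure_univ,
    smul_eq_mul, mul_one]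
  rw [← ENNReal.ofReal_add h0 (by linarith), add_sub_cancel, ENNReal.ofReal_one]

lemma coin_true (z : ℕ → ℕ) (m : ℕ) : coin z m {true} = ENNReal.ofReal (prob z m) := by
  unfold coin
  simp

/-- the random set of the model is given by independent events -/
theorem model_facts (z : ℕ → ℕ) :
    (∀ m : ℕ, MeasurableSet {ω : ℕ → Bool | ω m = true}) ∧
    iIndepSet (fun m : ℕ => {ω : ℕ → Bool | ω m = true}) (Measure.infinitePi (coin z)) ∧
    ∀ m : ℕ, (Measure.infinitePi (coin z)).real {ω : ℕ → Bool | ω m = true} = prob z m := by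
  have hm : ∀ m : ℕ, MeasurableSet {ω : ℕ → Bool | ω m = true} := fun m => by
    have h : Measurable (fun ω : ℕ → Bool => ω m) := measurable_pi_apply m
    exact h (measurableSet_singleton true)
  have key : ∀ s : Finset ℕ, Measure.infinitePi (coin z) (⋂ m ∈ s, {ω : ℕ → Bool | ω m = true})
      = ∏ m ∈ s, ENNReal.ofReal (prob z m) := by
    intro s
    have e : (⋂ m ∈ s, {ω : ℕ → Bool | ω m = true})
        = Set.pi (s : Set ℕ) (fun _ => ({true} : Set Bool)) := by
      ext ω
      simp [Set.mem_pi]
    rw [e, Measure.infinitePi_pi _ (fun m _ => measurableSet_singleton true)]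
    exact prod_congr rfl fun m _ => coin_true z m
  have key1 : ∀ m : ℕ, Measure.infinitePi (coin z) {ω : ℕ → Bool | ω m = true} =
      ENNReal.ofReal (prob z m) := by
    intro m
    have := key {m}
    simpa using this
  refine ⟨hm, ?_, ?_⟩
  · rw [iIndepSet_iff_meas_biInter hm]
    intro s
    rw [key s]
    exact prod_congr rfl fun m _ => (key1 m).symm
  · intro m
    rw [Measure.real, key1 m, ENNReal.toReal_ofReal (prob_nonneg z m)]

theorem one_le_mert (y : ℕ) : 1 ≤ mert y := by
  unfold mert
  refine Finset.prod_induction _ (fun x : ℝ => 1 ≤ x)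
    (fun a b ha hb => one_le_mul_of_one_le_of_one_le ha hb) le_rfl fun p hp => ?_
  have h2 : 2 ≤ p := (mem_filter.1 hp).2.two_le
  have h3 : (2 : ℝ) ≤ p := by exact_mod_cast h2
  have h4 : 1 / (p : ℝ) ≤ 1 / 2 := one_div_le_one_div_of_le (by norm_num) h3
  have h5 : 0 < 1 / (p : ℝ) := by positivity
  exact (one_le_inv₀ (by linarith)).2 (by linarith)

/-- The probability of a number without prime factors up to the sieving level. -/
theorem prob_ge {z : ℕ → ℕ} {m : ℕ} (hm : 3 ≤ m) (hc : m.Coprime (primorial (z m))) :
    1 / Real.log m ≤ prob z m := by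
  have h3 : (3 : ℝ) ≤ m := by exact_mod_cast hm
  have hl : 1 ≤ Real.log m := by
    rw [Real.le_log_iff_exp_le (by linarith)]
    exact Real.exp_one_lt_three.le.trans h3
  unfold prob
  rw [if_pos hc]
  refine le_min ((div_le_one (by linarith)).2 hl) ?_
  exact div_le_div_of_nonneg_right (one_le_mert _) (by linarith)

end Pool.Agent.PN86
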