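import Mathlib

/-!
# PN86/Num: the numbers
-/

set_option autoImplicit false

namespace Pool.Agent.PN86

open Filter Topology

/-- the reciprocal of the smallest probability that occurs -/
noncomputable def DD (n : ℕ) : ℝ := 10 * (√(n : ℝ) * Real.log n)

theorem tendsto_log : Tendsto (fun n : ℕ => Real.log (n : ℝ)) atTop atTop :=
  Real.tendsto_log_atTop.comp tendsto_natCast_atTop_atTop

theorem tendsto_sqrt : Tendsto (fun n : ℕ => √(n : ℝ)) atTop atTop :=
  Real.tendsto_sqrt_atTop.comp tendsto_natCast_atTop_atTop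

/-- `20 (log n)^2 ≤ n^(1/50)` and `10 log n ≤ n^(1/10)` -/
theorem log_small : ∀ᶠ n : ℕ in atTop, 20 * (Real.log n) ^ 2 ≤ (n : ℝ) ^ (1 / 50 : ℝ) ∧
    10 * Real.log n ≤ (n : ℝ) ^ (1 / 10 : ℝ) := by
  have h1 : (fun x : ℝ => (Real.log x) ^ 2) =o[atTop] fun x : ℝ => x ^ (1 / 50 : ℝ) := by
    have := isLittleO_log_rpow_rpow_atTop (s := 1 / 50) 2 (by norm_num : (0 : ℝ) < 1 / 50)
    simpa using this
  have h2 := (h1.bound (by norm_num : (0 : ℝ) < 1 / 20)).filter_mono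
    (tendsto_natCast_atTop_atTop (R := ℝ))
  have h4 : (fun x : ℝ => Real.log x) =o[atTop] fun x : ℝ => x ^ (1 / 10 : ℝ) :=
    isLittleO_log_rpow_atTop (by norm_num)
  have h5 := (h4.bound (by norm_num : (0 : ℝ) < 1 / 10)).filter_mono
    (tendsto_natCast_atTop_atTop (R := ℝ))
  have h2' := eventually_map.1 h2
  have h5' := eventually_map.1 h5
  filter_upwards [h2', h5', eventually_ge_atTop 1] with n a b hn
  have hn' : (1 : ℝ) ≤ n := by exact_mod_cast hn
  have hl : 0 ≤ Real.log (n : ℝ) := Real.log_nonneg hn'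
  constructor
  · rw [Real.norm_of_nonneg (by positivity), Real.norm_of_nonneg (by positivity)] at a
    linarith
  · rw [Real.norm_of_nonneg hl, Real.norm_of_nonneg (by positivity)] at b
    linarith

theorem num1 : ∀ᶠ n : ℕ in atTop, 1 ≤ DD n ∧
    ∀ m : ℕ, 3 ≤ m → m ≤ 2 * n * (n + 1) ^ (6 * (Nat.sqrt n + 1)) →
      Real.log m ≤ DD n ∧ Real.log (Real.log m) ≤ 3 / 5 * Real.log n := by
  filter_upwards [log_small, tendsto_log.eventually_ge_atTop 10,
    tendsto_sqrt.eventually_ge_atTop 10, eventually_ge_atTop 1] with n hsm hl hR hn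
  have hn' : (1 : ℝ) ≤ n := by exact_mod_cast hn
  have hn0 : (0 : ℝ) < n := by linarith
  set l : ℝ := Real.log n with hldef
  set R : ℝ := √(n : ℝ) with hRdef
  have hD : DD n = 10 * (R * l) := rfl
  refine ⟨by rw [hD]; nlinarith, fun m hm3 hm => ?_⟩
  have hm0 : (0 : ℝ) < m := by
    have : 0 < m := by omega
    exact_mod_cast this
  have hm1 : (1 : ℝ) < m := by
    have : 1 < m := by omega
    exact_mod_cast this
  have hlogm : 0 < Real.log m := Real.log_pos hm1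
  have h2 : Real.log 2 ≤ 1 := by
    have := Real.log_two_lt_d9
    linarith
  have hs : ((Nat.sqrt n : ℕ) : ℝ) ≤ R := Real.nat_sqrt_le_real_sqrt
  have hl1 : Real.log ((n : ℝ) + 1) ≤ l + 1 := by
    have h3 : Real.log ((n : ℝ) + 1) ≤ Real.log (2 * n) :=
      Real.log_le_log (by linarith) (by linarith)
    rw [Real.log_mul (by norm_num) (by linarith)] at h3
    linarith
  have hmain : Real.log m ≤ 10 * (R * l) := by
    have h4 : Real.log m ≤ Real.log (2 * n * ((n : ℝ) + 1) ^ (6 * (Nat.sqrt n + 1))) := by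
      refine Real.log_le_log hm0 ?_
      exact_mod_cast hm
    rw [Real.log_mul (by positivity) (by positivity), Real.log_mul (by norm_num) (by linarith),
      Real.log_pow] at h4
    push_cast at h4
    have h5 : 6 * (((Nat.sqrt n : ℕ) : ℝ) + 1) * Real.log ((n : ℝ) + 1) ≤
        6 * (R + 1) * (l + 1) := by
      refine mul_le_mul (by linarith) hl1 (Real.log_nonneg (by linarith)) (by linarith)
    have h6 : 6 * (R + 1) * (l + 1) ≤ 8 * (R * l) := by
      nlinarith [mul_nonneg (sub_nonneg.2 hR) (sub_nonneg.2 hl)]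
    have h7 : Real.log 2 + l ≤ 2 * (R * l) := by nlinarith
    linarith
  refine ⟨by rw [hD]; exact hmain, ?_⟩
  have h8 : R * (10 * l) ≤ (n : ℝ) ^ (3 / 5 : ℝ) := by
    have h9 : (n : ℝ) ^ (3 / 5 : ℝ) = R * (n : ℝ) ^ (1 / 10 : ℝ) := by
      rw [hRdef, Real.sqrt_eq_rpow, ← Real.rpow_add hn0]
      norm_num
    rw [h9]
    exact mul_le_mul_of_nonneg_left hsm.2 (Real.sqrt_nonneg _)
  have h10 : Real.log (Real.log m) ≤ Real.log ((n : ℝ) ^ (3 / 5 : ℝ)) :=
    Real.log_le_log hlogm (by linarith)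
  rw [Real.log_rpow hn0] at h10
  exact h10

theorem num2 : ∀ᶠ n : ℕ in atTop, ∀ K : ℕ, (n : ℝ) ^ (13 / 25 : ℝ) ≤ K →
    (1 - 1 / DD n) ^ K ≤ 1 / (n : ℝ) ^ 2 := by
  filter_upwards [log_small, num1, tendsto_log.eventually_ge_atTop 1, eventually_ge_atTop 1]
    with n hsm hD hl hn K hK
  have hn' : (1 : ℝ) ≤ n := by exact_mod_cast hn
  have hn0 : (0 : ℝ) < n := by linarith
  have hD1 : 1 ≤ DD n := hD.1
  have hD0 : 0 < DD n := by linarith
  have hx : 1 / DD n ≤ 1 := (div_le_one hD0).2 hD1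
  have h1 : 1 - 1 / DD n ≤ Real.exp (-(1 / DD n)) := Real.one_sub_le_exp_neg _
  have h2 : (1 - 1 / DD n) ^ K ≤ Real.exp (-(1 / DD n)) ^ K :=
    pow_le_pow_left₀ (by linarith) h1 K
  rw [← Real.exp_nat_mul] at h2
  refine h2.trans ?_
  have h3 : 2 * Real.log n ≤ K * (1 / DD n) := by
    rw [mul_one_div, le_div_iff₀ hD0]
    refine le_trans ?_ hK
    have h4 : (n : ℝ) ^ (13 / 25 : ℝ) = √(n : ℝ) * (n : ℝ) ^ (1 / 50 : ℝ) := by
      rw [Real.sqrt_eq_rpow, ← Real.rpow_add hn0]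
      norm_num
    rw [h4]
    have h5 : 2 * Real.log n * DD n = √(n : ℝ) * (20 * (Real.log n) ^ 2) := by
      unfold DD
      ring
    rw [h5]
    exact mul_le_mul_of_nonneg_left hsm.1 (Real.sqrt_nonneg _)
  have h6 : 1 / (n : ℝ) ^ 2 = Real.exp (-(2 * Real.log n)) := by
    rw [Real.exp_neg, one_div, two_mul, Real.exp_add, Real.exp_log hn0, pow_two]
  rw [h6]
  apply Real.exp_le_exp.2
  linarith

theorem num3 : ∀ᶠ n : ℕ in atTop,
    (n : ℝ) ^ (13 / 25 : ℝ) ≤ (((n - 1) / primorial ⌊3 / 10 * Real.log n⌋₊ : ℕ) : ℝ) := by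
  have ht : Tendsto (fun n : ℕ => (n : ℝ) ^ (1 / 25 : ℝ)) atTop atTop :=
    (tendsto_rpow_atTop (by norm_num)).comp tendsto_natCast_atTop_atTop
  filter_upwards [ht.eventually_ge_atTop 3, eventually_ge_atTop 1] with n hn8 hn
  have hn' : (1 : ℝ) ≤ n := by exact_mod_cast hn
  have hn0 : (0 : ℝ) < n := by linarith
  have hl : 0 ≤ Real.log (n : ℝ) := Real.log_nonneg hn'
  set Y : ℕ := ⌊3 / 10 * Real.log n⌋₊ with hY
  set W : ℕ := primorial Y with hW
  have hW0 : 0 < W := primorial_pos Y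
  have hW0' : (0 : ℝ) < W := by exact_mod_cast hW0
  have hYl : (Y : ℝ) ≤ 3 / 10 * Real.log n := Nat.floor_le (by positivity)
  have hWle : (W : ℝ) ≤ (n : ℝ) ^ (11 / 25 : ℝ) := by
    have h1 : (W : ℝ) ≤ (4 : ℝ) ^ Y := by exact_mod_cast primorial_le_four_pow Y
    refine h1.trans ?_
    rw [← Real.rpow_natCast, Real.rpow_def_of_pos (by norm_num : (0 : ℝ) < 4),
      Real.rpow_def_of_pos hn0]
    apply Real.exp_le_exp.2
    have h2 : Real.log 4 ≤ 7 / 5 := by
      have h3 : Real.log 4 = 2 * Real.log 2 := by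
        rw [show (4 : ℝ) = 2 ^ 2 by norm_num, Real.log_pow]
        norm_num
      have := Real.log_two_lt_d9
      linarith
    calc Real.log 4 * (Y : ℝ) ≤ 7 / 5 * (3 / 10 * Real.log n) :=
          mul_le_mul h2 hYl (Nat.cast_nonneg _) (by norm_num)
      _ ≤ Real.log n * (11 / 25) := by linarith
  have hdiv : ((n : ℝ) - 1) / W - 1 ≤ (((n - 1) / W : ℕ) : ℝ) := by
    have h1 : n - 1 < ((n - 1) / W + 1) * W := by
      have := Nat.lt_div_mul_add (a := n - 1) hW0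
      rw [add_mul, one_mul]
      exact this
    have h2 : ((n - 1 : ℕ) : ℝ) < (((n - 1) / W : ℕ) + 1) * W := by exact_mod_cast h1
    rw [Nat.cast_sub hn, Nat.cast_one] at h2
    rw [sub_le_iff_le_add, div_le_iff₀ hW0']
    exact h2.le
  refine le_trans ?_ hdiv
  set t : ℝ := (n : ℝ) ^ (1 / 25 : ℝ) with htdef
  have ht0 : 0 < t := by linarith
  have hnt : (n : ℝ) = t ^ 25 := by
    rw [htdef, ← Real.rpow_natCast, ← Real.rpow_mul hn0.le]
    norm_num
  have h11 : (n : ℝ) ^ (11 / 25 : ℝ) = t ^ 11 := by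
    rw [htdef, ← Real.rpow_natCast, ← Real.rpow_mul hn0.le]
    norm_num
  have h13 : (n : ℝ) ^ (13 / 25 : ℝ) = t ^ 13 := by
    rw [htdef, ← Real.rpow_natCast, ← Real.rpow_mul hn0.le]
    norm_num
  rw [h13]
  rw [h11] at hWle
  have h3 : ((n : ℝ) - 1) / t ^ 11 ≤ ((n : ℝ) - 1) / W := by
    apply div_le_div_of_nonneg_left (by linarith) hW0' hWle
  have h4 : t ^ 13 + 1 ≤ ((n : ℝ) - 1) / t ^ 11 := by
    rw [le_div_iff₀ (by positivity), hnt]
    have h5 : 1 ≤ t ^ 11 := one_le_pow₀ (by linarith)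
    have h5' : 1 ≤ t ^ 13 := one_le_pow₀ (by linarith)
    have h6 : t ^ 25 = t ^ 13 * t ^ 11 * t := by ring
    have h7 : t ^ 11 ≤ t ^ 13 * t ^ 11 := le_mul_of_one_le_left (by positivity) h5'
    have h8 : 1 ≤ t ^ 13 * t ^ 11 := one_le_mul_of_one_le_of_one_le h5' h5
    rw [h6]
    nlinarith
  linarith

end Pool.Agent.PN86
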