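import Pool.Agent.PN86.Part
import Pool.Agent.PN86.Num
import Pool.Agent.PN86.Bc
import Pool.Agent.PN86.Coin

/-!
# PN86/Main: primes made of partition numbers in the Cramer-Granville model
-/

set_option autoImplicit false

namespace Pool.Agent.PN86

open MeasureTheory ProbabilityTheory Filter Topology Finset Pool.Agent.GM53

/-- Almost surely the random set meets all but finitely many of the sets `S n`. -/
theorem as_from (z : ℕ → ℕ) (S : ℕ → Finset ℕ)
    (h : ∀ᶠ n : ℕ in atTop, (∀ m ∈ S n, 3 ≤ m ∧ m ≤ 2 * n * (n + 1) ^ (6 * (Nat.sqrt n + 1)) ∧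
      m.Coprime (primorial (z m))) ∧ (n : ℝ) ^ (13 / 25 : ℝ) ≤ ((S n).card : ℝ)) :
    ∀ᵐ ω ∂(Measure.infinitePi (coin z)), ∀ᶠ n in atTop, ∃ m ∈ S n, ω m = true := by
  obtain ⟨h1, h2, h3⟩ := model_facts z
  refine as_exists (E := fun m => {ω : ℕ → Bool | ω m = true}) h1 h2 S (fun n => 1 / DD n) ?_
  filter_upwards [h, num1, num2] with n hS hD hK
  have hD0 : 0 < DD n := by linarith [hD.1]
  refine ⟨(div_le_one hD0).2 hD.1, fun m hm => ?_, hK _ hS.2⟩
  obtain ⟨a, b, c⟩ := hS.1 m hm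
  rw [h3]
  refine le_trans ?_ (prob_ge a c)
  have h4 : (1 : ℝ) < m := by
    have : 1 < m := by omega
    exact_mod_cast this
  exact one_div_le_one_div_of_le (Real.log_pos h4) (hD.2 m a b).1

theorem pp_one : pp 1 = 1 := by
  unfold pp
  exact Fintype.card_unique

theorem le_pp {n : ℕ} (hn : 1 ≤ n) : n ≤ pp n := by
  induction n, hn using Nat.le_induction with
  | base => rw [pp_one]
  | succ n hn ih => exact lt_of_le_of_lt ih (pp_succ hn)

theorem pp_le' (n : ℕ) : pp n ≤ (n + 1) ^ (2 * (Nat.sqrt n + 1)) := pp_le (Nat.lt_succ_sqrt n)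

theorem pp_le_of_lt {k n : ℕ} (hk : 1 ≤ k) (hkn : k < n) : pp k ≤ pp n := (pp_lt hk hkn).le

/-- `pp n ^ 3 ≤ (n + 1) ^ (6 s)` -/
theorem cube_le (n : ℕ) : pp n * pp n * pp n ≤ (n + 1) ^ (6 * (Nat.sqrt n + 1)) := by
  have h := pp_le' n
  calc pp n * pp n * pp n ≤ (n + 1) ^ (2 * (Nat.sqrt n + 1)) * (n + 1) ^ (2 * (Nat.sqrt n + 1)) *
        (n + 1) ^ (2 * (Nat.sqrt n + 1)) := Nat.mul_le_mul (Nat.mul_le_mul h h) h
    _ = (n + 1) ^ (6 * (Nat.sqrt n + 1)) := by
      rw [← pow_add, ← pow_add]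
      congr 1
      ring

theorem primorial_dvd {a b : ℕ} (h : a ≤ b) : primorial a ∣ primorial b := by
  unfold primorial
  exact Finset.prod_dvd_prod_of_subset _ _ _
    (Finset.filter_subset_filter _ (Finset.range_mono (Nat.succ_le_succ h)))

theorem coprime_le_two {w m : ℕ} (hw : w ≤ 2) (hm : Odd m) : m.Coprime (primorial w) := by
  have h1 : primorial w ∣ 2 := by
    have h2 := primorial_dvd hw
    have h3 : primorial 2 = 2 := by decide
    rwa [h3] at h2
  exact Nat.Coprime.coprime_dvd_right h1 (Nat.coprime_two_right.2 hm)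

/-- Q1 in the model. -/
theorem q1 (z : ℕ → ℕ) (hz : ∀ᶠ m : ℕ in atTop, (z m : ℝ) ≤ Real.log (Real.log m) / 2) :
    ∀ᵐ ω ∂(Measure.infinitePi (coin z)), ∀ᶠ n : ℕ in atTop,
      ∃ k, 1 ≤ k ∧ k < n ∧ ω (k * (pp n * (pp n - 1)) + 1) = true := by
  set W : ℕ → ℕ := fun n => primorial ⌊3 / 10 * Real.log n⌋₊ with hW
  set S : ℕ → Finset ℕ := fun n =>
    (Icc 1 ((n - 1) / W n)).image (fun j => (j * W n) * (pp n * (pp n - 1)) + 1) with hS
  have hmain := as_from z S ?_
  · filter_upwards [hmain] with ω hω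
    filter_upwards [hω] with n hn
    obtain ⟨m, hm, hωm⟩ := hn
    rw [hS, mem_image] at hm
    obtain ⟨j, hj, rfl⟩ := hm
    rw [mem_Icc] at hj
    have hW0 : 0 < W n := primorial_pos _
    have h1 : j * W n ≤ n - 1 := by
      calc j * W n ≤ (n - 1) / W n * W n := Nat.mul_le_mul_right _ hj.2
        _ ≤ n - 1 := Nat.div_mul_le_self _ _
    have h2 : 1 ≤ j * W n := Nat.mul_pos hj.1 hW0
    exact ⟨j * W n, h2, by omega, hωm⟩
  · obtain ⟨M, hM⟩ := eventually_atTop.1 hz
    filter_upwards [num1, num3, eventually_ge_atTop 4, eventually_ge_atTop M]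
      with n hD hK hn4 hnM
    have hp : n ≤ pp n := le_pp (by omega)
    have hW0 : 0 < W n := primorial_pos _
    set P : ℕ := pp n * (pp n - 1) with hP
    have hPn : n ≤ P := by
      have h1 : 1 ≤ pp n - 1 := by omega
      calc n ≤ pp n := hp
        _ = pp n * 1 := (mul_one _).symm
        _ ≤ pp n * (pp n - 1) := Nat.mul_le_mul_left _ h1
    have hP0 : 0 < P := by omega
    constructor
    · intro m hm
      rw [hS, mem_image] at hm
      obtain ⟨j, hj, hjm⟩ := hm
      rw [mem_Icc] at hj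
      change (j * W n) * P + 1 = m at hjm
      have h1 : j * W n ≤ n - 1 := by
        calc j * W n ≤ (n - 1) / W n * W n := Nat.mul_le_mul_right _ hj.2
          _ ≤ n - 1 := Nat.div_mul_le_self _ _
      have h2 : 1 ≤ j * W n := Nat.mul_pos hj.1 hW0
      have hmn : n ≤ m := by
        rw [← hjm]
        have : P ≤ (j * W n) * P := Nat.le_mul_of_pos_left _ h2
        omega
      have hmu : m ≤ 2 * n * (n + 1) ^ (6 * (Nat.sqrt n + 1)) := by
        have h3 : P ≤ pp n * pp n * pp n := by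
          have h4 : pp n - 1 ≤ pp n := Nat.sub_le _ _
          have h5 : 1 ≤ pp n := by omega
          calc P ≤ pp n * pp n := Nat.mul_le_mul_left _ h4
            _ ≤ pp n * pp n * pp n := Nat.le_mul_of_pos_right _ h5
        have h6 := h3.trans (cube_le n)
        have h7 : (j * W n) * P ≤ n * (n + 1) ^ (6 * (Nat.sqrt n + 1)) :=
          Nat.mul_le_mul (by omega) h6
        have h8 : 1 ≤ n * (n + 1) ^ (6 * (Nat.sqrt n + 1)) :=
          Nat.mul_pos (by omega) (by positivity)
        rw [← hjm, show 2 * n * (n + 1) ^ (6 * (Nat.sqrt n + 1)) =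
          n * (n + 1) ^ (6 * (Nat.sqrt n + 1)) + n * (n + 1) ^ (6 * (Nat.sqrt n + 1)) by ring]
        exact Nat.add_le_add h7 h8
      refine ⟨by omega, hmu, ?_⟩
      have hzm : z m ≤ ⌊3 / 10 * Real.log n⌋₊ := by
        refine Nat.le_floor ((hM m (by omega)).trans ?_)
        have := (hD.2 m (by omega) hmu).2
        linarith
      refine Nat.Coprime.coprime_dvd_right (primorial_dvd hzm) ?_
      change m.Coprime (W n)
      rw [← hjm, show (j * W n) * P + 1 = 1 + W n * (j * P) by ring]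
      exact (Nat.coprime_add_mul_left_left 1 (W n) (j * P)).2 (Nat.coprime_one_left _)
    · refine hK.trans (le_of_eq ?_)
      rw [hS]
      dsimp only
      rw [card_image_of_injective, Nat.card_Icc, Nat.add_sub_cancel]
      intro j j' h
      have h1 : (j * W n) * P = (j' * W n) * P := Nat.add_right_cancel h
      exact Nat.eq_of_mul_eq_mul_right hW0 (Nat.eq_of_mul_eq_mul_right hP0 h1)

theorem even_mul (a : ℕ) : Even (a * (a - 1)) := by
  rw [mul_comm]
  rcases Nat.eq_zero_or_pos a with h | h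
  · subst h
    simp
  · have := Nat.even_mul_succ_self (a - 1)
    rwa [Nat.sub_add_cancel h] at this

theorem rpow_le_card {n : ℕ} (hn : 16 ≤ n) : (n : ℝ) ^ (13 / 25 : ℝ) ≤ ((n - 1 : ℕ) : ℝ) := by
  have hn' : (16 : ℝ) ≤ n := by exact_mod_cast hn
  have hn0 : (0 : ℝ) < n := by linarith
  refine (Real.rpow_le_rpow_of_exponent_le (by linarith)
    (by norm_num : (13 / 25 : ℝ) ≤ 3 / 4)).trans ?_
  rw [Nat.cast_sub (by omega), Nat.cast_one]
  have h1 : (2 : ℝ) ≤ (n : ℝ) ^ (1 / 4 : ℝ) := by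
    have h2 : (16 : ℝ) ^ (1 / 4 : ℝ) = 2 := by
      rw [show (16 : ℝ) = 2 ^ (4 : ℝ) by norm_num, ← Real.rpow_mul (by norm_num)]
      norm_num
    rw [← h2]
    exact Real.rpow_le_rpow (by norm_num) hn' (by norm_num)
  have h3 : (n : ℝ) ^ (3 / 4 : ℝ) * (n : ℝ) ^ (1 / 4 : ℝ) = n := by
    rw [← Real.rpow_add hn0]
    norm_num
  have h4 : (0 : ℝ) < (n : ℝ) ^ (3 / 4 : ℝ) := by positivity
  nlinarith

/-- Q2 (a) in the model. -/
theorem q2a (z : ℕ → ℕ) (hz : ∀ᶠ m : ℕ in atTop, z m ≤ 2) :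
    ∀ᵐ ω ∂(Measure.infinitePi (coin z)), ∀ᶠ n : ℕ in atTop,
      ∃ k, 1 ≤ k ∧ k < n ∧ ω (pp k * (pp n * (pp n - 1)) + 1) = true := by
  set S : ℕ → Finset ℕ := fun n =>
    (Ico 1 n).image (fun k => pp k * (pp n * (pp n - 1)) + 1) with hS
  have hmain := as_from z S ?_
  · filter_upwards [hmain] with ω hω
    filter_upwards [hω] with n hn
    obtain ⟨m, hm, hωm⟩ := hn
    rw [hS, mem_image] at hm
    obtain ⟨k, hk, rfl⟩ := hm
    rw [mem_Ico] at hk
    exact ⟨k, hk.1, hk.2, hωm⟩
  · obtain ⟨M, hM⟩ := eventually_atTop.1 hz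
    filter_upwards [eventually_ge_atTop 16, eventually_ge_atTop M] with n hn hnM
    have hp : n ≤ pp n := le_pp (by omega)
    set P : ℕ := pp n * (pp n - 1) with hP
    have hPn : n ≤ P := by
      have h1 : 1 ≤ pp n - 1 := by omega
      calc n ≤ pp n := hp
        _ = pp n * 1 := (mul_one _).symm
        _ ≤ pp n * (pp n - 1) := Nat.mul_le_mul_left _ h1
    have hP0 : 0 < P := by omega
    have hPle : P ≤ pp n * pp n := Nat.mul_le_mul_left _ (Nat.sub_le _ _)
    constructor
    · intro m hm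
      rw [hS, mem_image] at hm
      obtain ⟨k, hk, hkm⟩ := hm
      rw [mem_Ico] at hk
      change pp k * P + 1 = m at hkm
      have hk1 : 1 ≤ pp k := hk.1.trans (le_pp hk.1)
      have hmn : n ≤ m := by
        rw [← hkm]
        have : P ≤ pp k * P := Nat.le_mul_of_pos_left _ hk1
        omega
      have hmu : m ≤ 2 * n * (n + 1) ^ (6 * (Nat.sqrt n + 1)) := by
        have h3 : pp k * P ≤ pp n * pp n * pp n := by
          calc pp k * P ≤ pp n * (pp n * pp n) := Nat.mul_le_mul (pp_le_of_lt hk.1 hk.2) hPle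
            _ = pp n * pp n * pp n := by ring
        have h6 := h3.trans (cube_le n)
        have h8 : 1 ≤ (n + 1) ^ (6 * (Nat.sqrt n + 1)) := Nat.one_le_pow _ _ (by omega)
        have h9 : 2 * (n + 1) ^ (6 * (Nat.sqrt n + 1)) ≤
            2 * n * (n + 1) ^ (6 * (Nat.sqrt n + 1)) := Nat.mul_le_mul_right _ (by omega)
        rw [← hkm]
        omega
      refine ⟨by omega, hmu, coprime_le_two (hM m (by omega)) ?_⟩
      rw [← hkm]
      exact ((even_mul (pp n)).mul_left (pp k)).add_one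
    · refine (rpow_le_card hn).trans (le_of_eq ?_)
      rw [hS]
      dsimp only
      rw [card_image_of_injOn, Nat.card_Ico]
      intro k hk k' hk' h
      rw [coe_Ico, Set.mem_Ico] at hk hk'
      have h1 : pp k * P = pp k' * P := Nat.add_right_cancel h
      have h2 : pp k = pp k' := Nat.eq_of_mul_eq_mul_right hP0 h1
      rcases lt_trichotomy k k' with h3 | h3 | h3
      · exact absurd h2 (pp_lt hk.1 h3).ne
      · exact h3
      · exact absurd h2.symm (pp_lt hk'.1 h3).ne

/-- Q2 (b) in the model. -/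
theorem q2b (z : ℕ → ℕ) (hz : ∀ᶠ m : ℕ in atTop, z m ≤ 2) :
    ∀ᵐ ω ∂(Measure.infinitePi (coin z)), ∀ᶠ n : ℕ in atTop,
      ∃ k, 1 ≤ k ∧ k < n ∧ ω (pp k * (pp n * (pp n + 1)) - 1) = true := by
  set S : ℕ → Finset ℕ := fun n =>
    (Ico 1 n).image (fun k => pp k * (pp n * (pp n + 1)) - 1) with hS
  have hmain := as_from z S ?_
  · filter_upwards [hmain] with ω hω
    filter_upwards [hω] with n hn
    obtain ⟨m, hm, hωm⟩ := hn
    rw [hS, mem_image] at hm
    obtain ⟨k, hk, rfl⟩ := hm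
    rw [mem_Ico] at hk
    exact ⟨k, hk.1, hk.2, hωm⟩
  · obtain ⟨M, hM⟩ := eventually_atTop.1 hz
    filter_upwards [eventually_ge_atTop 16, eventually_ge_atTop M] with n hn hnM
    have hp : n ≤ pp n := le_pp (by omega)
    set P : ℕ := pp n * (pp n + 1) with hP
    have hPn : n * 2 ≤ P := Nat.mul_le_mul hp (by omega)
    have hP0 : 0 < P := by omega
    have hPle : P ≤ 2 * (pp n * pp n) := by
      calc P ≤ pp n * (2 * pp n) := Nat.mul_le_mul_left _ (by omega)
        _ = 2 * (pp n * pp n) := by ring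
    constructor
    · intro m hm
      rw [hS, mem_image] at hm
      obtain ⟨k, hk, hkm⟩ := hm
      rw [mem_Ico] at hk
      change pp k * P - 1 = m at hkm
      have hk1 : 1 ≤ pp k := hk.1.trans (le_pp hk.1)
      have hPk : P ≤ pp k * P := Nat.le_mul_of_pos_left _ hk1
      have hmn : n ≤ m := by omega
      have hmu : m ≤ 2 * n * (n + 1) ^ (6 * (Nat.sqrt n + 1)) := by
        have h3 : pp k * P ≤ 2 * (pp n * pp n * pp n) := by
          calc pp k * P ≤ pp n * (2 * (pp n * pp n)) :=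
                Nat.mul_le_mul (pp_le_of_lt hk.1 hk.2) hPle
            _ = 2 * (pp n * pp n * pp n) := by ring
        have h6 := h3.trans (Nat.mul_le_mul_left 2 (cube_le n))
        have h9 : 2 * (n + 1) ^ (6 * (Nat.sqrt n + 1)) ≤
            2 * n * (n + 1) ^ (6 * (Nat.sqrt n + 1)) := Nat.mul_le_mul_right _ (by omega)
        omega
      refine ⟨by omega, hmu, coprime_le_two (hM m (by omega)) ?_⟩
      have he : Even (pp k * P) := (Nat.even_mul_succ_self (pp n)).mul_left (pp k)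
      rw [← hkm]
      exact Nat.Even.sub_odd (by omega) he odd_one
    · refine (rpow_le_card hn).trans (le_of_eq ?_)
      rw [hS]
      dsimp only
      rw [card_image_of_injOn, Nat.card_Ico]
      intro k hk k' hk' h
      rw [coe_Ico, Set.mem_Ico] at hk hk'
      have hk1 : 1 ≤ pp k := hk.1.trans (le_pp hk.1)
      have hk1' : 1 ≤ pp k' := hk'.1.trans (le_pp hk'.1)
      have hPk : P ≤ pp k * P := Nat.le_mul_of_pos_left _ hk1
      have hPk' : P ≤ pp k' * P := Nat.le_mul_of_pos_left _ hk1'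
      have h0 : pp k * P - 1 = pp k' * P - 1 := h
      have h1 : pp k * P = pp k' * P := by omega
      have h2 : pp k = pp k' := Nat.eq_of_mul_eq_mul_right hP0 h1
      rcases lt_trichotomy k k' with h3 | h3 | h3
      · exact absurd h2 (pp_lt hk.1 h3).ne
      · exact h3
      · exact absurd h2.symm (pp_lt hk'.1 h3).ne

end Pool.Agent.PN86
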