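import Mathlib

/-!
# PN86/Part: the number of partitions: an elementary upper bound and strict monotonicity
-/

set_option autoImplicit false

namespace Pool.Agent.PN86

open Finset

/-- the number of partitions of `n` -/
def pp (n : ℕ) : ℕ := Fintype.card (Nat.Partition n)

/-- A multiset with at most `s` elements in `[1, n]` is given by a function on `Fin s`. -/
theorem exists_fn (n s : ℕ) : ∀ M : Multiset ℕ, M.card ≤ s → (∀ x ∈ M, 0 < x ∧ x ≤ n) →
    ∃ G : Fin s → Fin (n + 1),
      Multiset.filter (fun x => 0 < x) ((List.ofFn (fun j => (G j : ℕ)) : List ℕ) : Multiset ℕ) =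
        M := by
  induction s with
  | zero =>
    intro M hM _
    have h0 : M = 0 := Multiset.card_eq_zero.1 (Nat.le_zero.1 hM)
    subst h0
    exact ⟨fun j => j.elim0, by simp⟩
  | succ s ih =>
    intro M hM hx
    rcases Multiset.empty_or_exists_mem M with h0 | ⟨a, ha⟩
    · subst h0
      obtain ⟨G, hG⟩ := ih 0 (by simp) (by simp)
      refine ⟨Fin.cons 0 G, ?_⟩
      have h1 : (List.ofFn (fun j => ((Fin.cons 0 G : Fin (s + 1) → Fin (n + 1)) j : ℕ))) =
          0 :: List.ofFn (fun j => (G j : ℕ)) := by
        rw [List.ofFn_succ]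
        simp
      rw [h1, ← Multiset.cons_coe, Multiset.filter_cons_of_neg _ (by simp), hG]
    · obtain ⟨M', rfl⟩ := Multiset.exists_cons_of_mem ha
      obtain ⟨G, hG⟩ := ih M' (by rw [Multiset.card_cons] at hM; omega)
        (fun x h => hx x (Multiset.mem_cons_of_mem h))
      obtain ⟨ha0, han⟩ := hx a (Multiset.mem_cons_self a M')
      refine ⟨Fin.cons ⟨a, by omega⟩ G, ?_⟩
      have h1 : (List.ofFn (fun j => ((Fin.cons ⟨a, by omega⟩ G : Fin (s + 1) → Fin (n + 1)) j : ℕ)))
          = a :: List.ofFn (fun j => (G j : ℕ)) := by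
        rw [List.ofFn_succ]
        simp
      rw [h1, ← Multiset.cons_coe, Multiset.filter_cons_of_pos _ ha0, hG]

theorem sum_le_of_le {A B : Multiset ℕ} (h : A ≤ B) : A.sum ≤ B.sum := by
  obtain ⟨t, rfl⟩ := Multiset.le_iff_exists_add.1 h
  rw [Multiset.sum_add]
  exact Nat.le_add_right _ _

theorem part_le {n : ℕ} (π : Nat.Partition n) {x : ℕ} (hx : x ∈ π.parts) : x ≤ n := by
  rw [← π.parts_sum]
  exact Multiset.single_le_sum (fun _ _ => Nat.zero_le _) x hx

theorem count_le {n : ℕ} (π : Nat.Partition n) {x : ℕ} (hx : 0 < x) : π.parts.count x ≤ n := by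
  have h1 : Multiset.replicate (π.parts.count x) x ≤ π.parts :=
    Multiset.le_count_iff_replicate_le.1 le_rfl
  have h2 : (Multiset.replicate (π.parts.count x) x).sum ≤ π.parts.sum := sum_le_of_le h1
  rw [Multiset.sum_replicate, smul_eq_mul, π.parts_sum] at h2
  exact (Nat.le_mul_of_pos_right _ hx).trans h2

theorem card_big {n s : ℕ} (hs : n < s * s) (π : Nat.Partition n) :
    (π.parts.filter (fun x => s < x)).card ≤ s := by
  by_contra h
  push Not at h
  have h1 : (π.parts.filter (fun x => s < x)).card * s ≤ (π.parts.filter (fun x => s < x)).sum := by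
    have := Multiset.card_nsmul_le_sum (s := π.parts.filter (fun x => s < x)) (a := s)
      (fun x hx => (Multiset.mem_filter.1 hx).2.le)
    simpa using this
  have h2 : (π.parts.filter (fun x => s < x)).sum ≤ π.parts.sum :=
    sum_le_of_le (Multiset.filter_le _ _)
  rw [π.parts_sum] at h2
  have h3 : s * s ≤ (π.parts.filter (fun x => s < x)).card * s := Nat.mul_le_mul_right s h.le
  omega

/-- The elementary upper bound. -/
theorem pp_le {n s : ℕ} (hs : n < s * s) : pp n ≤ (n + 1) ^ (2 * s) := by
  classical
  have hG : ∀ π : Nat.Partition n, ∃ G : Fin s → Fin (n + 1),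
      Multiset.filter (fun x => 0 < x) ((List.ofFn (fun j => (G j : ℕ)) : List ℕ) : Multiset ℕ) =
        π.parts.filter (fun x => s < x) := fun π =>
    exists_fn n s _ (card_big hs π) fun x hx =>
      ⟨π.parts_pos (Multiset.mem_filter.1 hx).1, part_le π (Multiset.mem_filter.1 hx).1⟩
  choose G hG using hG
  let F : Nat.Partition n → (Fin s → Fin (n + 1)) × (Fin s → Fin (n + 1)) := fun π =>
    (fun i => ⟨π.parts.count ((i : ℕ) + 1), Nat.lt_succ_of_le (count_le π (Nat.succ_pos _))⟩, G π)
  have hF : Function.Injective F := by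
    intro π π' h
    have h1 : ∀ i : Fin s, π.parts.count ((i : ℕ) + 1) = π'.parts.count ((i : ℕ) + 1) := by
      intro i
      have := congrArg (fun t => ((t.1 i : Fin (n + 1)) : ℕ)) h
      exact this
    have h2 : G π = G π' := congrArg Prod.snd h
    have h3 : π.parts.filter (fun x => s < x) = π'.parts.filter (fun x => s < x) := by
      rw [← hG π, ← hG π', h2]
    apply Nat.Partition.ext
    refine Multiset.ext.2 fun a => ?_
    rcases Nat.eq_zero_or_pos a with ha | ha
    · subst ha
      rw [Multiset.count_eq_zero.2 fun h0 => lt_irrefl 0 (π.parts_pos h0),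
        Multiset.count_eq_zero.2 fun h0 => lt_irrefl 0 (π'.parts_pos h0)]
    · by_cases has : a ≤ s
      · have := h1 ⟨a - 1, by omega⟩
        simp only at this
        rwa [Nat.sub_add_cancel ha] at this
      · push Not at has
        rw [← Multiset.count_filter_of_pos (p := fun x => s < x) has,
          ← Multiset.count_filter_of_pos (p := fun x => s < x) (s := π'.parts) has, h3]
  have h4 := Fintype.card_le_of_injective F hF
  rw [Fintype.card_prod, Fintype.card_fun, Fintype.card_fin, Fintype.card_fin, ← pow_add] at h4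
  rw [two_mul]
  exact h4

/-- add a part `1` -/
def addOne {k : ℕ} (π : Nat.Partition k) : Nat.Partition (k + 1) where
  parts := 1 ::ₘ π.parts
  parts_pos := fun {i} hi => by
    rcases Multiset.mem_cons.1 hi with h | h
    · rw [h]; exact Nat.one_pos
    · exact π.parts_pos h
  parts_sum := by rw [Multiset.sum_cons, π.parts_sum, add_comm]

theorem pp_succ {k : ℕ} (hk : 1 ≤ k) : pp k < pp (k + 1) := by
  unfold pp
  refine Fintype.card_lt_of_injective_of_notMem (addOne (k := k)) ?_
    (b := Nat.Partition.indiscrete (k + 1)) ?_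
  · intro π π' h
    apply Nat.Partition.ext
    have h1 : 1 ::ₘ π.parts = 1 ::ₘ π'.parts := congrArg Nat.Partition.parts h
    exact (Multiset.cons_inj_right 1).1 h1
  · rintro ⟨π, h⟩
    have h1 : 1 ::ₘ π.parts = (Nat.Partition.indiscrete (k + 1)).parts :=
      congrArg Nat.Partition.parts h
    rw [Nat.Partition.indiscrete_parts (Nat.succ_ne_zero k)] at h1
    have h2 : 1 ∈ ({k + 1} : Multiset ℕ) := by
      rw [← h1]
      exact Multiset.mem_cons_self _ _
    rw [Multiset.mem_singleton] at h2
    omega

theorem pp_lt {k l : ℕ} (hk : 1 ≤ k) (hkl : k < l) : pp k < pp l := by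
  induction l, hkl using Nat.le_induction with
  | base => exact pp_succ hk
  | succ l hl ih => exact ih.trans (pp_succ (by omega))

end Pool.Agent.PN86
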